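import Mathlib

set_option autoImplicit false

/-!
Compound matrices and the Cauchy-Binet formula.
-/

namespace Pool.Agent.MP_077ac3_nt.H73

open Matrix

/-- Subsets of size `r` of `Fin n`. -/
abbrev Sub (n r : ℕ) : Type := Set.powersetCard (Fin n) r

/-- The increasing enumeration of a subset. -/
def emb {n r : ℕ} (s : Sub n r) : Fin r → Fin n := Set.powersetCard.ofFinEmbEquiv.symm s

theorem emb_injective {n r : ℕ} (s : Sub n r) : Function.Injective (emb s) :=
  (Set.powersetCard.ofFinEmbEquiv.symm s).injective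

theorem emb_mem {n r : ℕ} (s : Sub n r) (a : Fin r) : emb s a ∈ s.1 :=
  Finset.orderEmbOfFin_mem s.1 s.2 a

theorem exists_emb {n r : ℕ} (s : Sub n r) {i : Fin n} (hi : i ∈ s.1) : ∃ a, emb s a = i :=
  (Set.powersetCard.mem_range_ofFinEmbEquiv_symm_iff_mem s i).2 hi

theorem prod_emb {n r : ℕ} {M : Type} [CommMonoid M] (s : Sub n r) (f : Fin n → M) :
    ∏ a, f (emb s a) = ∏ i ∈ s.1, f i := by
  refine Finset.prod_bij (fun a _ => emb s a) (fun a _ => emb_mem s a)
    (fun a _ b _ h => emb_injective s h) (fun i hi => ?_) (fun _ _ => rfl)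
  obtain ⟨a, ha⟩ := exists_emb s hi
  exact ⟨a, Finset.mem_univ _, ha⟩

theorem sum_emb {n r : ℕ} {M : Type} [AddCommMonoid M] (s : Sub n r) (f : Fin n → M) :
    ∑ a, f (emb s a) = ∑ i ∈ s.1, f i := by
  refine Finset.sum_bij (fun a _ => emb s a) (fun a _ => emb_mem s a)
    (fun a _ b _ h => emb_injective s h) (fun i hi => ?_) (fun _ _ => rfl)
  obtain ⟨a, ha⟩ := exists_emb s hi
  exact ⟨a, Finset.mem_univ _, ha⟩

/-- The compound matrix of minors of size `r`. -/
def comp {n : ℕ} (r : ℕ) {R : Type} [CommRing R] (A : Matrix (Fin n) (Fin n) R) :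
    Matrix (Sub n r) (Sub n r) R :=
  Matrix.of fun s t => (A.submatrix (emb s) (emb t)).det

theorem comp_apply {n : ℕ} (r : ℕ) {R : Type} [CommRing R] (A : Matrix (Fin n) (Fin n) R)
    (s t : Sub n r) : comp r A s t = (A.submatrix (emb s) (emb t)).det := rfl

theorem comp_eq {n : ℕ} (r : ℕ) {R : Type} [CommRing R] (A : Matrix (Fin n) (Fin n) R) :
    comp r A = LinearMap.toMatrix ((Pi.basisFun R (Fin n)).exteriorPower r)
      ((Pi.basisFun R (Fin n)).exteriorPower r) (exteriorPower.map r (Matrix.toLin' A)) := by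
  ext s t
  rw [LinearMap.toMatrix_apply, exteriorPower.basis_apply, exteriorPower.map_apply_ιMulti_family,
    exteriorPower.basis_repr_apply, exteriorPower.ιMulti_family,
    exteriorPower.ιMultiDual_apply_ιMulti, comp_apply, ← Matrix.det_transpose]
  congr 1
  ext i j
  simp [emb]

theorem comp_mul {n : ℕ} (r : ℕ) {R : Type} [CommRing R] (A B : Matrix (Fin n) (Fin n) R) :
    comp r (A * B) = comp r A * comp r B := by
  rw [comp_eq, comp_eq, comp_eq, ← LinearMap.toMatrix_comp, ← exteriorPower.map_comp,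
    Matrix.toLin'_mul]

theorem comp_one {n : ℕ} (r : ℕ) {R : Type} [CommRing R] :
    comp r (1 : Matrix (Fin n) (Fin n) R) = 1 := by
  rw [comp_eq, Matrix.toLin'_one, exteriorPower.map_id, LinearMap.toMatrix_id]

theorem comp_map {n : ℕ} (r : ℕ) {R R' : Type} [CommRing R] [CommRing R'] (f : R →+* R')
    (A : Matrix (Fin n) (Fin n) R) : comp r (A.map f) = (comp r A).map f := by
  ext s t
  rw [comp_apply, Matrix.map_apply, comp_apply, RingHom.map_det]
  rfl

theorem det_comp_ne_zero {n : ℕ} (r : ℕ) {R : Type} [Field R] (A : Matrix (Fin n) (Fin n) R)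
    (h : A.det ≠ 0) : (comp r A).det ≠ 0 := by
  have h1 : comp r A * comp r A⁻¹ = 1 := by
    rw [← comp_mul, Matrix.mul_nonsing_inv _ (isUnit_iff_ne_zero.2 h), comp_one]
  intro h0
  have := congrArg Matrix.det h1
  rw [Matrix.det_mul, h0, zero_mul, Matrix.det_one] at this
  exact zero_ne_one this

theorem det_comp_ne_zero_int {n : ℕ} (r : ℕ) (A : Matrix (Fin n) (Fin n) ℤ)
    (h : A.det ≠ 0) : (comp r A).det ≠ 0 := by
  have h1 : (A.map (Int.castRingHom ℚ)).det ≠ 0 := by
    rw [← RingHom.mapMatrix_apply, ← RingHom.map_det]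
    simpa using h
  have h2 := det_comp_ne_zero r _ h1
  rw [comp_map, ← RingHom.mapMatrix_apply, ← RingHom.map_det] at h2
  simpa using h2

theorem comp_diagonal_mul {n : ℕ} (r : ℕ) {R : Type} [CommRing R] (d : Fin n → R)
    (A : Matrix (Fin n) (Fin n) R) (s t : Sub n r) :
    comp r (Matrix.diagonal d * A) s t = (∏ i ∈ s.1, d i) * comp r A s t := by
  rw [comp_apply, comp_apply, ← prod_emb, ← Matrix.det_mul_column]
  congr 1
  ext i j
  simp [Matrix.diagonal_mul]

theorem comp_isAlgebraic {n : ℕ} (r : ℕ) (A : Matrix (Fin n) (Fin n) ℝ)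
    (h : ∀ i j, IsAlgebraic ℚ (A i j)) (s t : Sub n r) : IsAlgebraic ℚ (comp r A s t) := by
  rw [comp_apply, Matrix.det_apply']
  have key : ∀ x : ℝ, IsAlgebraic ℚ x ↔ x ∈ algebraicClosure ℚ ℝ := fun x =>
    (mem_algebraicClosure_iff).symm
  rw [key]
  refine sum_mem fun σ _ => mul_mem (intCast_mem _ _) (prod_mem fun i _ => ?_)
  exact (key _).1 (h _ _)

/-- Every index lies in the same number of subsets. -/
theorem sum_sub {n r : ℕ} (hr : 1 ≤ r) (f : Fin n → ℝ) :
    ∑ s : Sub n r, ∑ i ∈ s.1, f i = ((n - 1).choose (r - 1) : ℝ) * ∑ i, f i := by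
  classical
  have h1 : ∀ s : Sub n r, ∑ i ∈ s.1, f i = ∑ i, if i ∈ s.1 then f i else 0 := by
    intro s
    rw [Finset.sum_ite_mem, Finset.univ_inter]
  simp_rw [h1]
  rw [Finset.sum_comm, Finset.mul_sum]
  refine Finset.sum_congr rfl fun i _ => ?_
  rw [← Finset.sum_filter, Finset.sum_const, nsmul_eq_mul]
  congr 2
  have h2 := Finset.card_filter_powersetCard_subset ({i} : Finset (Fin n)) Finset.univ r
    (Finset.subset_univ _) (by simpa using hr)
  rw [Finset.card_univ, Fintype.card_fin, Finset.card_singleton] at h2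
  rw [← h2]
  refine Finset.card_bij (fun s _ => s.1) ?_ ?_ ?_
  · intro s hs
    simp only [Finset.mem_filter, Finset.mem_univ, true_and] at hs
    simp only [Finset.mem_filter, Finset.mem_powersetCard, Finset.subset_univ, true_and,
      Finset.singleton_subset_iff]
    exact ⟨s.2, hs⟩
  · intro s _ t _ h
    exact Subtype.ext h
  · intro s hs
    simp only [Finset.mem_filter, Finset.mem_powersetCard, Finset.subset_univ, true_and,
      Finset.singleton_subset_iff] at hs
    exact ⟨⟨s, hs.1⟩, by simpa using hs.2, rfl⟩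

/-- Leibniz bound for a determinant. -/
theorem abs_det_le {r : ℕ} (A : Matrix (Fin r) (Fin r) ℝ) (B : ℝ)
    (h : ∀ σ : Equiv.Perm (Fin r), ∏ i, |A i (σ i)| ≤ B) : |A.det| ≤ (r.factorial : ℝ) * B := by
  rw [← Matrix.det_transpose, Matrix.det_apply']
  refine (Finset.abs_sum_le_sum_abs _ _).trans ?_
  have : ∀ σ : Equiv.Perm (Fin r),
      |((Equiv.Perm.sign σ : ℤ) : ℝ) * ∏ i, Aᵀ (σ i) i| ≤ B := by
    intro σ
    rw [abs_mul, Finset.abs_prod]
    have hs : |((Equiv.Perm.sign σ : ℤ) : ℝ)| = 1 := by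
      rcases Int.units_eq_one_or (Equiv.Perm.sign σ) with h | h <;> simp [h]
    rw [hs, one_mul]
    exact h σ
  refine (Finset.sum_le_sum fun σ _ => this σ).trans ?_
  rw [Finset.sum_const, Finset.card_univ, Fintype.card_perm, Fintype.card_fin, nsmul_eq_mul]

/-- The linear algebra step: a vector killing all columns of two compound matrices except the
column `s0` identifies the spans of the columns outside `s0`. -/
theorem span_step {n r : ℕ} (s0 : Sub n r) (j0 : Fin n) (hj0 : j0 ∈ s0.1)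
    (B B1 : Matrix (Fin n) (Fin n) ℚ) (hB : B.det ≠ 0) (hB1 : B1.det ≠ 0)
    (w : Sub n r → ℚ) (hw : w ≠ 0)
    (h : ∀ l, l ≠ s0 → ∑ s, w s * comp r B s l = 0)
    (h1 : ∀ l, l ≠ s0 → ∑ s, w s * comp r B1 s l = 0)
    (t : Fin n → ℚ) (ht : ∀ j ∈ s0.1, t j = 0) :
    (B1⁻¹ *ᵥ (B *ᵥ t)) j0 = 0 := by
  classical
  set x := B *ᵥ t with hx
  set t1 := B1⁻¹ *ᵥ x with ht1
  have hu : IsUnit B.det := isUnit_iff_ne_zero.2 hB
  have hu1 : IsUnit B1.det := isUnit_iff_ne_zero.2 hB1
  set Z : Matrix (Fin n) (Fin n) ℚ := (B⁻¹ * B1).updateCol j0 t with hZ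
  set Z1 : Matrix (Fin n) (Fin n) ℚ := (1 : Matrix (Fin n) (Fin n) ℚ).updateCol j0 t1 with hZ1
  have e : B * Z = B1 * Z1 := by
    rw [hZ, hZ1, Matrix.mul_updateCol, Matrix.mul_updateCol, ← Matrix.mul_assoc,
      Matrix.mul_nonsing_inv _ hu, Matrix.one_mul, Matrix.mul_one, ht1, Matrix.mulVec_mulVec,
      Matrix.mul_nonsing_inv _ hu1, Matrix.one_mulVec]
  have key : ∀ (C Y : Matrix (Fin n) (Fin n) ℚ), (∀ l, l ≠ s0 → ∑ s, w s * comp r C s l = 0) →
      ∑ s, w s * comp r (C * Y) s s0 = (∑ s, w s * comp r C s s0) * comp r Y s0 s0 := by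
    intro C Y hC
    rw [comp_mul]
    simp_rw [Matrix.mul_apply, Finset.mul_sum]
    rw [Finset.sum_comm]
    simp_rw [← mul_assoc, ← Finset.sum_mul]
    rw [Finset.sum_eq_single s0]
    · intro l _ hl
      rw [hC l hl, zero_mul]
    · intro h
      exact absurd (Finset.mem_univ _) h
  obtain ⟨a0, ha0⟩ := exists_emb s0 hj0
  have z0 : comp r Z s0 s0 = 0 := by
    rw [comp_apply]
    refine Matrix.det_eq_zero_of_column_eq_zero a0 fun i => ?_
    rw [Matrix.submatrix_apply, ha0, hZ, Matrix.updateCol_self]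
    exact ht _ (emb_mem s0 i)
  have z1 : comp r Z1 s0 s0 = t1 j0 := by
    rw [comp_apply]
    have : Z1.submatrix (emb s0) (emb s0)
        = (1 : Matrix (Fin r) (Fin r) ℚ).updateCol a0 (fun a => t1 (emb s0 a)) := by
      ext a b
      rw [Matrix.submatrix_apply, hZ1, Matrix.updateCol_apply, Matrix.updateCol_apply]
      by_cases hb : b = a0
      · rw [if_pos hb, if_pos (by rw [hb, ha0])]
      · rw [if_neg hb, if_neg (by rw [← ha0]; exact fun h => hb (emb_injective s0 h))]
        simp [Matrix.one_apply, (emb_injective s0).eq_iff]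
    rw [this, ← Matrix.cramer_apply, Matrix.cramer_one, ← ha0]
    rfl
  have τ1 : ∑ s, w s * comp r B1 s s0 ≠ 0 := by
    intro h0
    have hv : w ᵥ* comp r B1 = 0 := by
      funext l
      by_cases hl : l = s0
      · rw [hl]; exact h0
      · exact h1 l hl
    exact hw (Matrix.eq_zero_of_vecMul_eq_zero (det_comp_ne_zero r B1 hB1) hv)
  have k1 := key B Z h
  have k2 := key B1 Z1 h1
  rw [e, k2, z0, mul_zero, z1] at k1
  exact (mul_eq_zero.1 k1).resolve_left τ1

end Pool.Agent.MP_077ac3_nt.H73
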