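import Mathlib
import Pool.Agent.MP_077ac3_nt.H18.Defs
import Pool.Agent.MP_077ac3_nt.H73.Compound

set_option autoImplicit false

/-!
Successive minima of the parametrised parallelepipeds and their limits along an ultrafilter.
-/

namespace Pool.Agent.MP_077ac3_nt.H73

open Matrix Filter Topology H18

section dv

variable {ι S : Type} [Fintype S] (g : S → ℕ) (e : ι → S → ℝ)

theorem dv_pos (hg : ∀ s, 0 < g s) (q : ℝ) (i : ι) : 0 < dv g e q i :=
  Finset.prod_pos fun s _ => pow_pos (by exact_mod_cast hg s) _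

theorem log_dv (hg : ∀ s, 0 < g s) (q : ℝ) (i : ι) :
    Real.log (dv g e q i : ℝ) = ∑ s, (⌈e i s * q⌉₊ : ℝ) * Real.log (g s) := by
  unfold dv
  push_cast
  rw [Real.log_prod (fun s _ => pow_ne_zero _ (by exact_mod_cast (hg s).ne'))]
  exact Finset.sum_congr rfl fun s _ => Real.log_pow _ _

omit [Fintype S] in
theorem log_g_nonneg (hg : ∀ s, 0 < g s) (s : S) : 0 ≤ Real.log (g s : ℝ) :=
  Real.log_nonneg (by exact_mod_cast hg s)

theorem le_log_dv (hg : ∀ s, 0 < g s) (q : ℝ) (i : ι) :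
    (∑ s, e i s * Real.log (g s)) * q ≤ Real.log (dv g e q i : ℝ) := by
  rw [log_dv g e hg, Finset.sum_mul]
  refine Finset.sum_le_sum fun s _ => ?_
  have := mul_le_mul_of_nonneg_right (Nat.le_ceil (e i s * q)) (log_g_nonneg g hg s)
  linarith

theorem log_dv_le (hg : ∀ s, 0 < g s) (he : ∀ i s, 0 ≤ e i s) (q : ℝ) (hq : 0 ≤ q) (i : ι) :
    Real.log (dv g e q i : ℝ) ≤ (∑ s, e i s * Real.log (g s)) * q + ∑ s, Real.log (g s) := by
  rw [log_dv g e hg, Finset.sum_mul, ← Finset.sum_add_distrib]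
  refine Finset.sum_le_sum fun s _ => ?_
  have := mul_le_mul_of_nonneg_right
    (Nat.ceil_lt_add_one (mul_nonneg (he i s) hq)).le (log_g_nonneg g hg s)
  linarith

theorem dv_sum_dvd {κ : Type} (T : κ → Finset ι) (q : ℝ) (k : κ) :
    dv g (fun k s => ∑ i ∈ T k, e i s) q k ∣ ∏ i ∈ T k, dv g e q i := by
  unfold dv
  rw [Finset.prod_comm]
  refine Finset.prod_dvd_prod_of_dvd _ _ fun s _ => ?_
  rw [Finset.prod_pow_eq_pow_sum]
  refine pow_dvd_pow _ (Nat.ceil_le.2 ?_)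
  rw [Finset.sum_mul]
  push_cast
  exact Finset.sum_le_sum fun i _ => Nat.le_ceil _

end dv

theorem exists_lim (U : Ultrafilter ℝ) (f : ℝ → ℝ) (a b : ℝ)
    (h : ∀ᶠ q in (U : Filter ℝ), a ≤ f q ∧ f q ≤ b) : ∃ γ, Tendsto f (U : Filter ℝ) (𝓝 γ) := by
  have := (isCompact_Icc (a := a) (b := b)).ultrafilter_le_nhds (U.map f)
    (le_principal_iff.2 h)
  obtain ⟨γ, _, hγ⟩ := this
  exact ⟨γ, hγ⟩

/-- The matrix of the parallelepiped at parameter `q`. -/
noncomputable def Aq {n : ℕ} {S : Type} [Fintype S] (L : Matrix (Fin n) (Fin n) ℝ) (g : S → ℕ)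
    (c : Fin n → ℝ) (e : Fin n → S → ℝ) (q : ℝ) : Matrix (Fin n) (Fin n) ℝ :=
  diagonal (fun i => Real.exp (-(c i * q))) * L * diagonal (fun i => (dv g e q i : ℝ))

theorem Aq_apply {n : ℕ} {S : Type} [Fintype S] (L : Matrix (Fin n) (Fin n) ℝ) (g : S → ℕ)
    (c : Fin n → ℝ) (e : Fin n → S → ℝ) (q : ℝ) (i j : Fin n) :
    Aq L g c e q i j = Real.exp (-(c i * q)) * L i j * (dv g e q j : ℝ) := by
  simp [Aq, Matrix.mul_diagonal, Matrix.diagonal_mul]

theorem Aq_sum {n : ℕ} {S : Type} [Fintype S] (L : Matrix (Fin n) (Fin n) ℝ) (g : S → ℕ)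
    (c : Fin n → ℝ) (e : Fin n → S → ℝ) (q : ℝ) (i : Fin n) (x : Fin n → ℤ) :
    ∑ j, L i j * ((dv g e q j * x j : ℤ) : ℝ)
      = Real.exp (c i * q) * ∑ j, Aq L g c e q i j * (x j : ℝ) := by
  rw [Finset.mul_sum]
  refine Finset.sum_congr rfl fun j _ => ?_
  rw [Aq_apply, Real.exp_neg]
  push_cast
  field_simp

theorem det_Aq {n : ℕ} {S : Type} [Fintype S] (L : Matrix (Fin n) (Fin n) ℝ) (g : S → ℕ)
    (c : Fin n → ℝ) (e : Fin n → S → ℝ) (q : ℝ) :
    (Aq L g c e q).det = (∏ i, Real.exp (-(c i * q))) * L.det * ∏ i, (dv g e q i : ℝ) := by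
  rw [Aq, Matrix.det_mul, Matrix.det_mul, Matrix.det_diagonal, Matrix.det_diagonal]

theorem det_Aq_ne {n : ℕ} {S : Type} [Fintype S] (L : Matrix (Fin n) (Fin n) ℝ) (g : S → ℕ)
    (c : Fin n → ℝ) (e : Fin n → S → ℝ) (q : ℝ) (hL : L.det ≠ 0) (hg : ∀ s, 0 < g s) :
    (Aq L g c e q).det ≠ 0 := by
  rw [det_Aq]
  refine mul_ne_zero (mul_ne_zero (Finset.prod_ne_zero_iff.2 fun i _ => (Real.exp_pos _).ne') hL)
    (Finset.prod_ne_zero_iff.2 fun i _ => ?_)
  exact_mod_cast (dv_pos g e hg q i).ne'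

theorem log_det_Aq {n : ℕ} {S : Type} [Fintype S] (L : Matrix (Fin n) (Fin n) ℝ) (g : S → ℕ)
    (c : Fin n → ℝ) (e : Fin n → S → ℝ) (q : ℝ) (hL : L.det ≠ 0) (hg : ∀ s, 0 < g s) :
    Real.log |(Aq L g c e q).det|
      = -(∑ i, c i) * q + Real.log |L.det| + ∑ i, Real.log (dv g e q i : ℝ) := by
  have h1 : ∀ i, (dv g e q i : ℝ) ≠ 0 := fun i => by exact_mod_cast (dv_pos g e hg q i).ne'
  rw [Real.log_abs, Real.log_abs, det_Aq, Real.log_mul, Real.log_mul _ hL,
    Real.log_prod (fun i _ => (Real.exp_pos _).ne'), Real.log_prod (fun i _ => h1 i)]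
  · simp only [Real.log_exp]
    rw [Finset.sum_neg_distrib, ← Finset.sum_mul]
    ring
  · exact Finset.prod_ne_zero_iff.2 fun i _ => (Real.exp_pos _).ne'
  · exact mul_ne_zero (Finset.prod_ne_zero_iff.2 fun i _ => (Real.exp_pos _).ne') hL
  · exact Finset.prod_ne_zero_iff.2 fun i _ => h1 i

/-- Lower bound for the product of the minima. -/
theorem det_le_prod {n : ℕ} (A : Matrix (Fin n) (Fin n) ℝ) (V : Matrix (Fin n) (Fin n) ℤ)
    (π : Equiv.Perm (Fin n)) (μ : Fin n → ℝ) (K : ℝ) (hK : 0 ≤ K) (hV : V.det ≠ 0)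
    (h : ∀ i j, |∑ k, A (π i) k * (V k j : ℝ)| ≤ K * min (μ i) (μ j)) :
    |A.det| ≤ (n.factorial : ℝ) * ∏ i, (K * μ i) := by
  have h1 : (1 : ℝ) ≤ |((V.map (Int.castRingHom ℝ)).det)| := by
    rw [← RingHom.mapMatrix_apply, ← RingHom.map_det]
    simp only [eq_intCast]
    exact_mod_cast Int.one_le_abs hV
  have h2 : |A.det| ≤ |((A * V.map (Int.castRingHom ℝ)).submatrix π (Equiv.refl _)).det| := by
    rw [Matrix.abs_det_submatrix_equiv_equiv, Matrix.det_mul, abs_mul]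
    exact le_mul_of_one_le_right (abs_nonneg _) h1
  refine h2.trans (abs_det_le _ _ fun σ => Finset.prod_le_prod (fun i _ => abs_nonneg _)
    fun i _ => ?_)
  have := h i (σ i)
  refine le_trans (le_of_eq ?_) (this.trans (mul_le_mul_of_nonneg_left (min_le_left _ _) hK))
  simp [Matrix.mul_apply]

/-- Lower bound for every minimum. -/
theorem one_le_mu {n : ℕ} {S : Type} [Fintype S] (L : Matrix (Fin n) (Fin n) ℝ) (g : S → ℕ)
    (c : Fin n → ℝ) (e : Fin n → S → ℝ) (q : ℝ) (hq : 0 ≤ q) (hL : L.det ≠ 0) (hg : ∀ s, 0 < g s)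
    (V : Matrix (Fin n) (Fin n) ℤ)
    (π : Equiv.Perm (Fin n)) (μ : Fin n → ℝ) (K : ℝ) (hK : 0 ≤ K) (hV : V.det ≠ 0)
    (h : ∀ i j, |∑ k, Aq L g c e q (π i) k * (V k j : ℝ)| ≤ K * min (μ i) (μ j)) (j : Fin n)
    (hμ : 0 ≤ μ j) :
    1 ≤ (∑ i, ∑ k, |L⁻¹ i k|) * (Real.exp ((∑ k, |c k|) * q) * (K * μ j)) := by
  have hex : ∃ i, V i j ≠ 0 := by
    by_contra hc
    push Not at hc
    exact hV (Matrix.det_eq_zero_of_column_eq_zero j hc)
  obtain ⟨i, hi⟩ := hex
  set y : Fin n → ℝ := fun k => ((dv g e q k * V k j : ℤ) : ℝ) with hy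
  have h1 : (1 : ℝ) ≤ |y i| := by
    have : dv g e q i * V i j ≠ 0 := mul_ne_zero (dv_pos g e hg q i).ne' hi
    simp only [hy]
    exact_mod_cast Int.one_le_abs this
  have h2 : y i = ∑ k, L⁻¹ i k * (L *ᵥ y) k := by
    have : L⁻¹ *ᵥ (L *ᵥ y) = y := by
      rw [Matrix.mulVec_mulVec, Matrix.nonsing_inv_mul _ (isUnit_iff_ne_zero.2 hL),
        Matrix.one_mulVec]
    exact (congrFun this i).symm
  have h3 : ∀ k, |(L *ᵥ y) k| ≤ Real.exp ((∑ k, |c k|) * q) * (K * μ j) := by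
    intro k
    have e1 : (L *ᵥ y) k = Real.exp (c k * q) * ∑ l, Aq L g c e q k l * (V l j : ℝ) :=
      Aq_sum L g c e q k (fun l => V l j)
    have e2 := h (π.symm k) j
    rw [Equiv.apply_symm_apply] at e2
    rw [e1, abs_mul, abs_of_pos (Real.exp_pos _)]
    refine mul_le_mul (Real.exp_le_exp.2 (mul_le_mul_of_nonneg_right ?_ hq))
      (e2.trans (mul_le_mul_of_nonneg_left (min_le_right _ _) hK)) (abs_nonneg _)
      (Real.exp_pos _).le
    exact (le_abs_self _).trans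
      (Finset.single_le_sum (f := fun k => |c k|) (fun _ _ => abs_nonneg _) (Finset.mem_univ k))
  have h0 : 0 ≤ Real.exp ((∑ k, |c k|) * q) * (K * μ j) := by positivity
  calc (1 : ℝ) ≤ |y i| := h1
    _ ≤ ∑ k, |L⁻¹ i k| * (Real.exp ((∑ k, |c k|) * q) * (K * μ j)) := by
        rw [h2]
        refine (Finset.abs_sum_le_sum_abs _ _).trans (Finset.sum_le_sum fun k _ => ?_)
        rw [abs_mul]
        exact mul_le_mul_of_nonneg_left (h3 k) (abs_nonneg _)
    _ ≤ _ := by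
        rw [← Finset.sum_mul]
        refine mul_le_mul_of_nonneg_right ?_ h0
        exact Finset.single_le_sum (f := fun i => ∑ k, |L⁻¹ i k|)
          (fun _ _ => Finset.sum_nonneg fun _ _ => abs_nonneg _) (Finset.mem_univ i)

theorem setup (hG : GeomStmt) (n : ℕ) (S : Type) [Fintype S] (L : Matrix (Fin n) (Fin n) ℝ)
    (g : S → ℕ) (c : Fin n → ℝ) (e : Fin n → S → ℝ) (hL : L.det ≠ 0) (hg : ∀ s, 0 < g s)
    (he : ∀ i s, 0 ≤ e i s) (U : Ultrafilter ℝ) (hU : (U : Filter ℝ) ≤ atTop) :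
    ∃ (K : ℝ) (V : ℝ → Matrix (Fin n) (Fin n) ℤ) (π : Equiv.Perm (Fin n)) (ℓ : ℝ → Fin n → ℝ)
      (γ : Fin n → ℝ), 1 ≤ K ∧ Monotone γ ∧
      ∑ i, γ i = ∑ i, ∑ s, e i s * Real.log (g s) - ∑ i, c i ∧
      (∀ i, Tendsto (fun q => ℓ q i) (U : Filter ℝ) (𝓝 (γ i))) ∧
      ∀ᶠ q in (U : Filter ℝ), 0 < q ∧ (V q).det ≠ 0 ∧ Monotone (ℓ q) ∧
        (∀ i j, |∑ k, L (π i) k * ((dv g e q k * V q k j : ℤ) : ℝ)|
          ≤ K * Real.exp ((c (π i) + min (ℓ q i) (ℓ q j)) * q)) ∧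
        ∀ (x : Fin n → ℤ) (k : Fin n), 0 < ℓ q k →
          (∀ i, |∑ j, L i j * ((dv g e q j * x j : ℤ) : ℝ)| ≤ Real.exp (c i * q)) →
          ∃ t : Fin n → ℚ, (∀ j, k ≤ j → t j = 0) ∧
            ∀ i, (x i : ℚ) = ∑ j, (V q i j : ℚ) * t j := by
  obtain ⟨K, hK, hA⟩ := hG n
  choose V π μ hV hμ hmono hent hprod hspan using
    fun q : ℝ => hA (Aq L g c e q) (det_Aq_ne L g c e q hL hg)
  have hK0 : 0 < K := by linarith
  obtain ⟨π0, hπ0⟩ : ∃ π0, ∀ᶠ q in (U : Filter ℝ), π q = π0 :=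
    (Ultrafilter.eventually_exists_iff (f := U) (P := fun p q => π q = p)).1
      (Eventually.of_forall fun q => ⟨π q, rfl⟩)
  set δ : ℝ := ∑ i, ∑ s, e i s * Real.log (g s) - ∑ i, c i with hδ
  -- the sum of the logarithms
  obtain ⟨C0, hC0⟩ : ∃ C0 : ℝ, ∀ q : ℝ, 0 ≤ q →
      δ * q - C0 ≤ ∑ i, Real.log (μ q i) ∧ ∑ i, Real.log (μ q i) ≤ δ * q + C0 := by
    refine ⟨|Real.log K + Real.log |L.det| + ∑ _i : Fin n, ∑ s, Real.log (g s)|
      + |Real.log (n.factorial : ℝ) + ∑ _i : Fin n, Real.log K - Real.log (|L.det|)|,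
      fun q hq => ⟨?_, ?_⟩⟩
    · have h1 := det_le_prod _ _ _ _ K hK0.le (hV q) (hent q)
      have h2 := Real.log_le_log (abs_pos.2 (det_Aq_ne L g c e q hL hg)) h1
      rw [log_det_Aq L g c e q hL hg, Real.log_mul (by positivity)
        (Finset.prod_ne_zero_iff.2 fun i _ => (mul_pos hK0 (hμ q i)).ne'),
        Real.log_prod (fun i _ => (mul_pos hK0 (hμ q i)).ne')] at h2
      have h3 : ∑ i, Real.log (K * μ q i) = ∑ _i : Fin n, Real.log K + ∑ i, Real.log (μ q i) := by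
        rw [← Finset.sum_add_distrib]
        exact Finset.sum_congr rfl fun i _ => Real.log_mul hK0.ne' (hμ q i).ne'
      have h4 : (∑ i, ∑ s, e i s * Real.log (g s)) * q ≤ ∑ i, Real.log (dv g e q i : ℝ) := by
        rw [Finset.sum_mul]
        exact Finset.sum_le_sum fun i _ => le_log_dv g e hg q i
      have h5 := le_abs_self
        (Real.log (n.factorial : ℝ) + ∑ _i : Fin n, Real.log K - Real.log (|L.det|))
      have h6 := abs_nonneg (Real.log K + Real.log |L.det| + ∑ _i : Fin n, ∑ s, Real.log (g s))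
      rw [hδ]
      linarith
    · have h2 := Real.log_le_log (Finset.prod_pos fun i _ => hμ q i) (hprod q)
      rw [Real.log_mul hK0.ne' (abs_pos.2 (det_Aq_ne L g c e q hL hg)).ne',
        log_det_Aq L g c e q hL hg, Real.log_prod (fun i _ => (hμ q i).ne')] at h2
      have h4 : ∑ i, Real.log (dv g e q i : ℝ) ≤ (∑ i, ∑ s, e i s * Real.log (g s)) * q
          + ∑ _i : Fin n, ∑ s, Real.log (g s) := by
        rw [Finset.sum_mul, ← Finset.sum_add_distrib]
        exact Finset.sum_le_sum fun i _ => log_dv_le g e hg he q hq i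
      have h5 := le_abs_self (Real.log K + Real.log |L.det| + ∑ _i : Fin n, ∑ s, Real.log (g s))
      have h6 := abs_nonneg
        (Real.log (n.factorial : ℝ) + ∑ _i : Fin n, Real.log K - Real.log (|L.det|))
      rw [hδ]
      linarith
  -- the lower bound
  obtain ⟨C1, hC1, hlow⟩ : ∃ C1 : ℝ, 0 ≤ C1 ∧ ∀ q : ℝ, 1 ≤ q → ∀ j,
      -(C1 * q) ≤ Real.log (μ q j) := by
    refine ⟨(∑ k, |c k|) + |Real.log ((∑ i, ∑ k, |L⁻¹ i k|) * K)|, by positivity,
      fun q hq j => ?_⟩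
    have h1 := one_le_mu L g c e q (by linarith) hL hg (V q) (π q) (μ q) K hK0.le (hV q) (hent q)
      j (hμ q j).le
    have h2 : (∑ i, ∑ k, |L⁻¹ i k|) ≠ 0 := by
      intro h0
      rw [h0, zero_mul] at h1
      linarith
    have h3 := Real.log_nonneg h1
    rw [Real.log_mul h2 (mul_pos (Real.exp_pos _) (mul_pos hK0 (hμ q j))).ne',
      Real.log_mul (Real.exp_pos _).ne' (mul_pos hK0 (hμ q j)).ne', Real.log_exp,
      Real.log_mul hK0.ne' (hμ q j).ne'] at h3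
    have h4 := le_abs_self (Real.log ((∑ i, ∑ k, |L⁻¹ i k|) * K))
    have h5 := mul_le_mul_of_nonneg_left hq (abs_nonneg (Real.log ((∑ i, ∑ k, |L⁻¹ i k|) * K)))
    rw [Real.log_mul h2 hK0.ne'] at h4 h5 ⊢
    linarith
  have hq1 : ∀ᶠ q in (U : Filter ℝ), 1 ≤ q := hU (eventually_ge_atTop 1)
  set ℓ : ℝ → Fin n → ℝ := fun q i => Real.log (μ q i) / q with hℓ
  have hlim : ∀ j, ∃ γ, Tendsto (fun q => ℓ q j) (U : Filter ℝ) (𝓝 γ) := by
    intro j
    refine exists_lim U _ (-C1) (δ + |C0| + n * C1) (hq1.mono fun q hq => ?_)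
    have hq0 : 0 < q := by linarith
    constructor
    · simp only [hℓ]
      rw [le_div_iff₀ hq0]
      have := hlow q hq j
      linarith
    · simp only [hℓ]
      rw [div_le_iff₀ hq0]
      have h1 := Finset.single_le_sum (f := fun i => Real.log (μ q i) + C1 * q)
        (fun i _ => by have := hlow q hq i; linarith) (Finset.mem_univ j)
      rw [Finset.sum_add_distrib, Finset.sum_const, Finset.card_univ, Fintype.card_fin,
        nsmul_eq_mul] at h1
      have h2 := (hC0 q hq0.le).2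
      have h3 := le_abs_self C0
      have h4 := mul_le_mul_of_nonneg_left hq (abs_nonneg C0)
      have h5 := mul_nonneg hC1 hq0.le
      linarith
  choose γ hγ using hlim
  have hℓmono : ∀ q, 0 < q → Monotone (ℓ q) := fun q hq i j hij =>
    div_le_div_of_nonneg_right (Real.log_le_log (hμ q i) (hmono q hij)) hq.le
  have hexp : ∀ q, 0 < q → ∀ i, Real.exp (ℓ q i * q) = μ q i := by
    intro q hq i
    simp only [hℓ]
    rw [div_mul_cancel₀ _ hq.ne', Real.exp_log (hμ q i)]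
  refine ⟨K, V, π0, ℓ, γ, hK, fun i j hij => ?_, ?_, hγ, ?_⟩
  · exact le_of_tendsto_of_tendsto (hγ i) (hγ j)
      (hq1.mono fun q hq => hℓmono q (by linarith) hij)
  · have t1 : Tendsto (fun q => ∑ i, ℓ q i) (U : Filter ℝ) (𝓝 (∑ i, γ i)) :=
      tendsto_finsetSum _ fun i _ => hγ i
    have t0 : Tendsto (fun q : ℝ => C0 / q) (U : Filter ℝ) (𝓝 0) :=
      (tendsto_const_nhds.div_atTop tendsto_id).mono_left hU
    have t2 : Tendsto (fun q : ℝ => δ - C0 / q) (U : Filter ℝ) (𝓝 δ) := by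
      simpa using tendsto_const_nhds.sub t0
    have t3 : Tendsto (fun q : ℝ => δ + C0 / q) (U : Filter ℝ) (𝓝 δ) := by
      simpa using tendsto_const_nhds.add t0
    refine tendsto_nhds_unique t1 (tendsto_of_tendsto_of_tendsto_of_le_of_le' t2 t3
      (hq1.mono fun q hq => ?_) (hq1.mono fun q hq => ?_))
    · have hq0 : 0 < q := by linarith
      simp only [hℓ]
      rw [← Finset.sum_div, le_div_iff₀ hq0, sub_mul, div_mul_cancel₀ _ hq0.ne']
      exact (hC0 q hq0.le).1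
    · have hq0 : 0 < q := by linarith
      simp only [hℓ]
      rw [← Finset.sum_div, div_le_iff₀ hq0, add_mul, div_mul_cancel₀ _ hq0.ne']
      exact (hC0 q hq0.le).2
  · filter_upwards [hq1, hπ0] with q hq hπ
    have hq0 : 0 < q := by linarith
    refine ⟨hq0, hV q, hℓmono q hq0, fun i j => ?_, fun x k hk hx => hspan q x k fun i => ?_⟩
    · rw [Aq_sum L g c e q (π0 i) (fun k => V q k j), abs_mul, abs_of_pos (Real.exp_pos _),
        add_mul, Real.exp_add, mul_left_comm]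
      refine mul_le_mul_of_nonneg_left ?_ (Real.exp_pos _).le
      have h1 := hent q i j
      rw [hπ] at h1
      refine h1.trans (le_of_eq ?_)
      congr 1
      rcases le_total i j with hij | hij
      · rw [min_eq_left (hmono q hij), min_eq_left (hℓmono q hq0 hij), hexp q hq0]
      · rw [min_eq_right (hmono q hij), min_eq_right (hℓmono q hq0 hij), hexp q hq0]
    · have h1 := hx i
      rw [Aq_sum L g c e q i x, abs_mul, abs_of_pos (Real.exp_pos _)] at h1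
      have h2 : |∑ j, Aq L g c e q i j * (x j : ℝ)| ≤ 1 := by
        by_contra hc
        have := mul_lt_mul_of_pos_left (not_le.1 hc) (Real.exp_pos (c i * q))
        linarith
      rw [← hexp q hq0]
      exact h2.trans_lt (Real.one_lt_exp_iff.2 (mul_pos hk hq0))

end Pool.Agent.MP_077ac3_nt.H73
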