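import Mathlib
import Pool.Agent.MP_077ac3_nt.H18.Defs
import Pool.Agent.MP_077ac3_nt.H73.Compound
import Pool.Agent.MP_077ac3_nt.H73.Setup

set_option autoImplicit false

/-!
Module S: the parametric Subspace Theorem from the core statement and the geometry of numbers.
-/

namespace Pool.Agent.MP_077ac3_nt.H73

open Matrix Filter Topology H18

/-- Size of the minors. -/
theorem comp_bound {n r : ℕ} (A : Matrix (Fin n) (Fin n) ℝ) (K q : ℝ) (hK : 0 ≤ K) (hq : 0 ≤ q)
    (a ℓ : Fin n → ℝ) (hℓ : Monotone ℓ) (k km : Fin n) (hkm : ∀ j, j < k → j ≤ km)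
    (s0 : Sub n r) (hs0 : s0.1 = Finset.Ici k)
    (hA : ∀ i j, |A i j| ≤ K * Real.exp ((a i + min (ℓ i) (ℓ j)) * q))
    (s l : Sub n r) (hl : l ≠ s0) :
    |comp r A s l| ≤ (r.factorial : ℝ) * (K ^ r *
      Real.exp ((∑ i ∈ s.1, (a i + ℓ i) + if s = s0 then ℓ km - ℓ k else 0) * q)) := by
  classical
  rw [comp_apply]
  refine abs_det_le _ _ fun σ => ?_
  refine (Finset.prod_le_prod (fun i _ => abs_nonneg _) fun i _ =>
    hA (emb s i) (emb l (σ i))).trans ?_
  rw [Finset.prod_mul_distrib, Finset.prod_const, Finset.card_univ, Fintype.card_fin,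
    ← Real.exp_sum, ← Finset.sum_mul]
  refine mul_le_mul_of_nonneg_left (Real.exp_le_exp.2 (mul_le_mul_of_nonneg_right ?_ hq))
    (pow_nonneg hK _)
  rw [← sum_emb s (fun i => a i + ℓ i)]
  by_cases hs : s = s0
  · rw [if_pos hs]
    obtain ⟨j, hjl, hj0⟩ := (Set.powersetCard.exists_mem_notMem_iff_ne l s0).1 hl
    have hjk : j < k := by
      by_contra hc
      apply hj0
      rw [← Set.powersetCard.mem_coe_iff, hs0]
      exact Finset.mem_Ici.2 (not_lt.1 hc)
    obtain ⟨b, hb⟩ := exists_emb l (i := j) hjl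
    have e1 : ℓ km - ℓ k = ∑ i : Fin r, if i = σ.symm b then ℓ km - ℓ k else 0 := by simp
    rw [e1, ← Finset.sum_add_distrib]
    refine Finset.sum_le_sum fun i _ => ?_
    by_cases hi : i = σ.symm b
    · rw [if_pos hi]
      have h1 : emb l (σ i) = j := by rw [hi, Equiv.apply_symm_apply, hb]
      have h2 : k ≤ emb s i := by
        have := emb_mem s i
        rw [hs, hs0] at this
        rw [hs]
        exact Finset.mem_Ici.1 this
      have h3 := hℓ h2
      have h4 := hℓ (hkm j hjk)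
      have h5 := min_le_right (ℓ (emb s i)) (ℓ (emb l (σ i)))
      rw [h1] at h5 ⊢
      linarith
    · rw [if_neg hi]
      have h5 := min_le_left (ℓ (emb s i)) (ℓ (emb l (σ i)))
      linarith
  · rw [if_neg hs, add_zero]
    refine Finset.sum_le_sum fun i _ => ?_
    have h5 := min_le_left (ℓ (emb s i)) (ℓ (emb l (σ i)))
    linarith

theorem det_map_ne {n : ℕ} (B : Matrix (Fin n) (Fin n) ℤ) (h : B.det ≠ 0) :
    (B.map (Int.castRingHom ℚ)).det ≠ 0 := by
  rw [← RingHom.mapMatrix_apply, ← RingHom.map_det]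
  simpa using h

theorem comp_cast_sum {n r : ℕ} (B : Matrix (Fin n) (Fin n) ℤ) (w : Sub n r → ℤ) (l : Sub n r)
    (h : ∑ s, w s * comp r B s l = 0) :
    ∑ s, (w s : ℚ) * comp r (B.map (Int.castRingHom ℚ)) s l = 0 := by
  rw [comp_map]
  have := congrArg (Int.cast : ℤ → ℚ) h
  push_cast at this
  simpa using this

/-- The integral form of `span_step`. -/
theorem span_step_int {n r : ℕ} (s0 : Sub n r) (j0 : Fin n) (hj0 : j0 ∈ s0.1)
    (B B1 : Matrix (Fin n) (Fin n) ℤ) (hB : B.det ≠ 0) (hB1 : B1.det ≠ 0)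
    (w : Sub n r → ℤ) (hw : w ≠ 0)
    (h : ∀ l, l ≠ s0 → ∑ s, w s * comp r B s l = 0)
    (h1 : ∀ l, l ≠ s0 → ∑ s, w s * comp r B1 s l = 0)
    (t : Fin n → ℚ) (ht : ∀ j ∈ s0.1, t j = 0) (x : Fin n → ℤ)
    (hx : ∀ i, (x i : ℚ) = ∑ j, (B i j : ℚ) * t j) :
    ∑ i, B1.adjugate j0 i * x i = 0 := by
  have hw' : (fun s => (w s : ℚ)) ≠ 0 := by
    intro h0
    apply hw
    funext s
    have := congrFun h0 s
    simpa using this
  have key := span_step s0 j0 hj0 _ _ (det_map_ne B hB) (det_map_ne B1 hB1) _ hw'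
    (fun l hl => comp_cast_sum B w l (h l hl)) (fun l hl => comp_cast_sum B1 w l (h1 l hl)) t ht
  have e1 : (B.map (Int.castRingHom ℚ)) *ᵥ t = fun i => (x i : ℚ) := by
    funext i
    rw [hx i]
    rfl
  rw [e1, Matrix.inv_def, Matrix.smul_mulVec, Pi.smul_apply, smul_eq_mul, Ring.inverse_eq_inv']
    at key
  have key2 := (mul_eq_zero.1 key).resolve_left (inv_ne_zero (det_map_ne B1 hB1))
  rw [← RingHom.mapMatrix_apply, ← RingHom.map_adjugate] at key2
  have : ((∑ i, B1.adjugate j0 i * x i : ℤ) : ℚ) = 0 := by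
    push_cast
    exact key2
  exact_mod_cast this

theorem adjugate_row_ne {n : ℕ} (B : Matrix (Fin n) (Fin n) ℤ) (hB : B.det ≠ 0) (j : Fin n) :
    (fun i => B.adjugate j i) ≠ 0 := by
  intro h0
  have h1 := congrFun (congrFun (Matrix.adjugate_mul B) j) j
  rw [Matrix.mul_apply, Matrix.smul_apply, Matrix.one_apply_eq, smul_eq_mul, mul_one] at h1
  apply hB
  rw [← h1]
  refine Finset.sum_eq_zero fun i _ => ?_
  have := congrFun h0 i
  simp only [Pi.zero_apply] at this
  rw [this, zero_mul]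

theorem subspace_of : CoreStmt → GeomStmt → SubspaceStmt := by
  classical
  intro hC hG n S _ L g c e halg hL hg hcop he hsum U hU
  obtain ⟨K, V, π, ℓ, γ, hK, hγm, hγs, hγ, hev⟩ := setup hG n S L g c e hL hg he U hU
  have hex : ∃ i, 0 < γ i := by
    by_contra hc
    push Not at hc
    have := Finset.sum_nonpos (s := Finset.univ) fun i _ => hc i
    linarith
  obtain ⟨k, hk, hmin⟩ : ∃ k, 0 < γ k ∧ ∀ j, j < k → γ j ≤ 0 := by
    obtain ⟨k, hk, hmin⟩ := wellFounded_lt.has_min {i | 0 < γ i} hex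
    exact ⟨k, hk, fun j hj => not_lt.1 fun h => hmin j h hj⟩
  have hkev : ∀ᶠ q in (U : Filter ℝ), 0 < ℓ q k := (hγ k).eventually_const_lt hk
  -- the solutions lie in the span of the first `k` columns
  have hsol : ∀ᶠ q in (U : Filter ℝ), ∀ x : Fin n → ℤ,
      (∀ i, |∑ j, L i j * (x j : ℝ)| ≤ Real.exp (c i * q)) → (∀ i, dv g e q i ∣ x i) →
      ∃ t : Fin n → ℚ, (∀ j, k ≤ j → t j = 0) ∧
        ∀ i, (x i : ℚ) = ∑ j, ((diagonal (dv g e q) * V q) i j : ℚ) * t j := by
    filter_upwards [hev, hkev] with q hq hkq x hx hd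
    choose x' hx' using hd
    obtain ⟨t, ht, hxt⟩ := hq.2.2.2.2 x' k hkq (fun i => by simpa only [← hx'] using hx i)
    refine ⟨t, ht, fun i => ?_⟩
    rw [hx' i]
    push_cast
    rw [hxt i, Finset.mul_sum]
    refine Finset.sum_congr rfl fun j _ => ?_
    rw [Matrix.diagonal_mul]
    push_cast
    ring
  rcases Nat.eq_zero_or_pos k.1 with hk0 | hk0
  · refine ⟨fun _ => 1, fun h => one_ne_zero (congrFun h k), hsol.mono fun q hq x hx hd => ?_⟩
    obtain ⟨t, ht, hxt⟩ := hq x hx hd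
    refine Finset.sum_eq_zero fun i _ => ?_
    have h1 : (x i : ℚ) = 0 := by
      rw [hxt i]
      refine Finset.sum_eq_zero fun j _ => ?_
      rw [ht j (by rw [Fin.le_def]; omega), mul_zero]
    have h2 : x i = 0 := by exact_mod_cast h1
    rw [h2, mul_zero]
  have hkn := k.2
  set km : Fin n := ⟨k.1 - 1, by omega⟩ with hkmdef
  have hkm : ∀ j, j < k → j ≤ km := fun j hj => by
    rw [Fin.lt_def] at hj
    rw [Fin.le_def]
    simp only [hkmdef]
    omega
  have hkmk : km < k := by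
    rw [Fin.lt_def]
    simp only [hkmdef]
    omega
  have hgap : 0 < γ k - γ km := by
    have := hmin km hkmk
    linarith
  obtain ⟨r, hr⟩ : ∃ r, r = n - k.1 := ⟨_, rfl⟩
  have hr1 : 1 ≤ r := by omega
  set s0 : Sub n r := ⟨Finset.Ici k, by
    rw [Set.powersetCard.mem_iff, Fin.card_Ici, hr]⟩ with hs0def
  have hs0 : s0.1 = Finset.Ici k := rfl
  set η : ℝ := (γ k - γ km) / ((Fintype.card (Sub n r) : ℝ) + 1) with hη
  have hη0 : 0 < η := by positivity
  have hηN : (Fintype.card (Sub n r) : ℝ) * η < γ k - γ km := by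
    rw [hη, ← mul_div_assoc, div_lt_iff₀ (by positivity)]
    nlinarith
  set c' : Sub n r → ℝ := fun s =>
    (∑ i ∈ s.1, (c (π i) + γ i) + if s = s0 then γ km - γ k else 0) + η with hc'
  set e' : Sub n r → S → ℝ := fun s σ => ∑ i ∈ s.1, e i σ with he'
  have hLπ : (L.submatrix π id).det ≠ 0 := by
    rw [Matrix.det_permute]
    refine mul_ne_zero ?_ hL
    rcases Int.units_eq_one_or (Equiv.Perm.sign π) with h | h <;> simp [h]
  have hsum' : ∑ s, c' s < ∑ s, ∑ σ, e' s σ * Real.log (g σ) := by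
    have e1 : ∑ s, ∑ σ, e' s σ * Real.log (g σ)
        = ((n - 1).choose (r - 1) : ℝ) * ∑ i, ∑ σ, e i σ * Real.log (g σ) := by
      rw [← sum_sub hr1]
      refine Finset.sum_congr rfl fun s _ => ?_
      rw [Finset.sum_comm]
      refine Finset.sum_congr rfl fun σ _ => ?_
      simp only [he']
      rw [Finset.sum_mul]
    have e2 : ∑ s, c' s = ((n - 1).choose (r - 1) : ℝ) * ∑ i, (c (π i) + γ i) + (γ km - γ k)
        + (Fintype.card (Sub n r) : ℝ) * η := by
      simp only [hc']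
      rw [Finset.sum_add_distrib, Finset.sum_add_distrib, sum_sub hr1, Finset.sum_ite_eq',
        if_pos (Finset.mem_univ _), Finset.sum_const, Finset.card_univ, nsmul_eq_mul]
    have e3 : ∑ i, (c (π i) + γ i) = ∑ i, ∑ σ, e i σ * Real.log (g σ) := by
      rw [Finset.sum_add_distrib, Equiv.sum_comp π c, hγs]
      ring
    rw [e1, e2, e3]
    linarith
  obtain ⟨W, hW0, q0, hW⟩ := hC (Sub n r) S (comp r (L.submatrix π id)) g c' e'
    (comp_isAlgebraic r _ fun i j => halg _ _) (det_comp_ne_zero r _ hLπ) hg hcop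
    (fun s σ => Finset.sum_nonneg fun i _ => he i σ) hsum'
  have hF : ∀ᶠ q in (U : Filter ℝ), ∀ s : Sub n r, Real.log ((r.factorial : ℝ) * K ^ r) / q +
      (∑ i ∈ s.1, (c (π i) + ℓ q i) + if s = s0 then ℓ q km - ℓ q k else 0) ≤ c' s := by
    rw [eventually_all]
    intro s
    have t0 : Tendsto (fun q : ℝ => Real.log ((r.factorial : ℝ) * K ^ r) / q) (U : Filter ℝ)
        (𝓝 0) := (tendsto_const_nhds.div_atTop tendsto_id).mono_left hU
    have t1 : Tendsto (fun q => ∑ i ∈ s.1, (c (π i) + ℓ q i)) (U : Filter ℝ)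
        (𝓝 (∑ i ∈ s.1, (c (π i) + γ i))) :=
      tendsto_finsetSum _ fun i _ => tendsto_const_nhds.add (hγ i)
    have t2 : Tendsto (fun q => if s = s0 then ℓ q km - ℓ q k else 0) (U : Filter ℝ)
        (𝓝 (if s = s0 then γ km - γ k else 0)) := by
      by_cases hs : s = s0
      · simp only [if_pos hs]
        exact (hγ km).sub (hγ k)
      · simp only [if_neg hs]
        exact tendsto_const_nhds
    refine (t0.add (t1.add t2)).eventually_le_const ?_
    simp only [hc']
    linarith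
  have hdet : ∀ᶠ q in (U : Filter ℝ), (diagonal (dv g e q) * V q).det ≠ 0 := by
    refine hev.mono fun q hq => ?_
    rw [Matrix.det_mul, Matrix.det_diagonal]
    exact mul_ne_zero (Finset.prod_ne_zero_iff.2 fun i _ => (dv_pos g e hg q i).ne') hq.2.1
  have hWev : ∀ᶠ q in (U : Filter ℝ), ∃ w ∈ (W : Set (Sub n r → ℤ)), ∀ l, l ≠ s0 →
      ∑ s, w s * comp r (diagonal (dv g e q) * V q) s l = 0 := by
    filter_upwards [hev, hF, hdet, hU (eventually_ge_atTop q0)] with q hq hFq hdq hq0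
    refine hW q hq0 _ s0 (det_comp_ne_zero_int r _ hdq) (fun s l hl => ?_) (fun s l _ => ?_)
    · have e1 : ∑ j, comp r (L.submatrix π id) s j
            * ((comp r (diagonal (dv g e q) * V q) j l : ℤ) : ℝ)
          = comp r (L.submatrix π id * (diagonal (dv g e q) * V q).map (Int.castRingHom ℝ)) s l := by
        rw [comp_mul r (L.submatrix π id), comp_map, Matrix.mul_apply]
        rfl
      rw [e1]
      have hK0 : 0 < K := by linarith
      refine (comp_bound _ K q hK0.le hq.1.le (fun i => c (π i)) (ℓ q) hq.2.2.1 k km hkm s0 hs0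
        (fun i j => ?_) s l hl).trans ?_
      · refine le_trans (le_of_eq ?_) (hq.2.2.2.1 i j)
        rw [Matrix.mul_apply]
        congr 1
        refine Finset.sum_congr rfl fun m _ => ?_
        rw [Matrix.map_apply, Matrix.diagonal_mul]
        rfl
      · have e2 : (r.factorial : ℝ) * K ^ r
            = Real.exp (Real.log ((r.factorial : ℝ) * K ^ r) / q * q) := by
          rw [div_mul_cancel₀ _ hq.1.ne', Real.exp_log (by positivity)]
        rw [← mul_assoc, e2, ← Real.exp_add, ← add_mul]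
        exact Real.exp_le_exp.2 (mul_le_mul_of_nonneg_right (hFq s) hq.1.le)
    · rw [comp_diagonal_mul]
      exact (dv_sum_dvd g e (fun s : Sub n r => s.1) q s).mul_right _
  obtain ⟨w0, hw0W, hw0⟩ := (Ultrafilter.eventually_exists_mem_iff (f := U) W.finite_toSet).1 hWev
  have hw0ne : w0 ≠ 0 := fun h => hW0 (h ▸ hw0W)
  obtain ⟨q1, hq1, hq1'⟩ := (hw0.and hdet).exists
  refine ⟨fun i => (diagonal (dv g e q1) * V q1).adjugate k i, adjugate_row_ne _ hq1' k, ?_⟩
  filter_upwards [hsol, hw0, hdet] with q hs hw hd x hx hdx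
  obtain ⟨t, ht, hxt⟩ := hs x hx hdx
  exact span_step_int s0 k (Finset.mem_Ici.2 le_rfl) _ _ hd hq1' w0 hw0ne hw hq1 t
    (fun j hj => ht j (Finset.mem_Ici.1 hj)) x hxt

end Pool.Agent.MP_077ac3_nt.H73
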